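import Pool.Agent.W711.CR.Stm

set_option autoImplicit false

namespace Pool.Agent.W345.CR.Cnt

open Pool.Agent.W711.CR

theorem countable_closure {G : Type} [Group G] {s : Set G} (hs : s.Countable) :
    (Subgroup.closure s : Set G).Countable := by
  have h1 : {y : G | y ∈ s ∨ y⁻¹ ∈ s}.Countable :=
    hs.union (hs.preimage_of_injOn inv_injective.injOn)
  have : Countable {y : G | y ∈ s ∨ y⁻¹ ∈ s} := h1.to_subtype
  refine (Set.countable_range (fun l : List {y : G | y ∈ s ∨ y⁻¹ ∈ s} =>
    (l.map Subtype.val).prod)).mono ?_
  intro x hx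
  induction hx using Subgroup.closure_induction with
  | mem x hx => exact ⟨[⟨x, Or.inl hx⟩], by simp⟩
  | one => exact ⟨[], by simp⟩
  | mul x y _ _ h1 h2 =>
    obtain ⟨l1, h1⟩ := h1
    obtain ⟨l2, h2⟩ := h2
    refine ⟨l1 ++ l2, ?_⟩
    simp only [List.map_append, List.prod_append] at *
    rw [h1, h2]
  | inv x _ h1 =>
    obtain ⟨l1, h1⟩ := h1
    refine ⟨(l1.map (fun y => (⟨y.1⁻¹, by
      rcases y.2 with h | h
      · right; simpa using h
      · left; exact h⟩ : {y : G | y ∈ s ∨ y⁻¹ ∈ s}))).reverse, ?_⟩
    simp only at h1 ⊢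
    rw [← h1, List.prod_inv_reverse]
    simp [List.map_reverse, List.map_map, Function.comp_def]

theorem countable_add_closure {G : Type} [AddCommGroup G] {s : Set G} (hs : s.Countable) :
    (AddSubgroup.closure s : Set G).Countable := by
  have h := countable_closure (G := Multiplicative G) (s := Multiplicative.toAdd ⁻¹' s) hs
  refine (h.image Multiplicative.toAdd).mono ?_
  intro x hx
  refine ⟨Multiplicative.ofAdd x, ?_, rfl⟩
  induction hx using AddSubgroup.closure_induction with
  | mem x hx => exact Subgroup.subset_closure hx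
  | zero => exact Subgroup.one_mem _
  | add x y _ _ h1 h2 => exact Subgroup.mul_mem _ h1 h2
  | neg x _ h1 => exact Subgroup.inv_mem _ h1

theorem gam_countable (k : Type) [Field k] [Finite k] : Countable (Gam k) := by
  have h : ((Gam k : Subgroup _) : Set (E3 k ≃ₗ[Polynomial k] E3 k)).Countable := by
    apply countable_closure
    refine ((Set.Countable.union ?_ ?_).union ?_)
    · refine (Set.countable_range (fun a : k => tv 0 1 (by decide) (Polynomial.C a))).mono ?_
      rintro g ⟨a, rfl⟩; exact ⟨a, rfl⟩
    · refine (Set.countable_range (fun a : k => tv 1 2 (by decide) (Polynomial.C a))).mono ?_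
      rintro g ⟨a, rfl⟩; exact ⟨a, rfl⟩
    · refine (Set.countable_range (fun a : k => tv 2 0 (by decide)
        (Polynomial.C a * Polynomial.X))).mono ?_
      rintro g ⟨a, rfl⟩; exact ⟨a, rfl⟩
  exact h.to_subtype

theorem orb_countable (k : Type) [Field k] [Finite k] : (Orb k).Countable := by
  have := gam_countable k
  refine (Set.countable_range (fun g : Gam k => g • e3 k)).mono ?_
  rintro v ⟨g, rfl⟩; exact ⟨g, rfl⟩

theorem wsub_countable {E : Type} [AddCommGroup E] {S : Set E} (hS : S.Countable) :
    Countable (Wsub S) := by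
  have h : ((Wsub S : AddSubgroup _) : Set (Fn (Pol E))).Countable := by
    apply countable_add_closure
    refine (hS.image (fun v => ev v)).mono ?_
    rintro w ⟨v, hv, rfl⟩; exact ⟨v, hv, rfl⟩
  exact h.to_subtype

theorem asub_countable {E : Type} [AddCommGroup E] {S : Set E} (hS : S.Countable) :
    Countable (Asub S) := by
  have h : ((Asub S : AddSubgroup _) : Set (Fn (Pol E))).Countable := by
    apply countable_add_closure
    refine ((hS.image (fun v => (2 • ev v : Fn (Pol E)))).union
      (hS.image (fun v => (fun f : Pol E => bet (f.1 v))))).mono ?_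
    rintro w ⟨v, hv, rfl | rfl⟩
    · exact Or.inl ⟨v, hv, rfl⟩
    · exact Or.inr ⟨v, hv, rfl⟩
  exact h.to_subtype

theorem main : P_cnt := by
  intro k _ _
  have := gam_countable k
  have h1 : Countable (Wsub (Orb k)) := wsub_countable (orb_countable k)
  have h2 : Countable (Asub (Orb k)) := asub_countable (orb_countable k)
  have h3 : Countable (Multiplicative (WSt (Γ := Gam k) (Orb k) (Orb_stable k)).W) := h1
  have h4 : Countable (Multiplicative (ASt (Γ := Gam k) (Orb k) (Orb_stable k)).W) := h2
  constructor
  · exact (SemidirectProduct.equivProd (φ := rho (WSt (Γ := Gam k) (Orb k)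
      (Orb_stable k)))).injective.countable
  · exact (SemidirectProduct.equivProd (φ := rho (ASt (Γ := Gam k) (Orb k)
      (Orb_stable k)))).injective.countable

end Pool.Agent.W345.CR.Cnt
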