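import Pool.Agent.W345.CR.Avg

set_option autoImplicit false
set_option linter.unusedSectionVars false

namespace Pool.Agent.W345.CR

open Pool.Agent.W711.CR

theorem norm_sq_inner {H : Type} [NormedAddCommGroup H] [InnerProductSpace ℂ H] (v : H) :
    ((‖v‖ ^ 2 : ℝ) : ℂ) = inner ℂ v v := by
  rw [inner_self_eq_norm_sq_to_K]; norm_cast

theorem heis : P_heis := by
  intro k _ _ G _ x y z hh H _ _ _ π hπ ξ hy horth
  have hx := hh.x_add
  have hya := hh.y_add
  have hz := hh.z_add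
  have hq := card_ne (K := k)
  -- zeta
  have hzy : ∀ b, π (y b) (av π z ξ) = av π z ξ := by
    intro b
    rw [av_comm (w := z) (y b) (fun a => (hh.zy a b).symm), hy]
  have hζfix : ∀ a b, π (y b) (π (x a) (av π z ξ)) = π (x a) (av π z ξ) := by
    intro a b
    have h1 : π (x a * y b) (av π z ξ) = π (y b * x a * z (a * b)) (av π z ξ) := by
      rw [hh.comm]
    rw [pi_mul, hzy, pi_mul, av_fix hz, pi_mul] at h1
    exact h1.symm
  have hζ0 : av π x (av π z ξ) = 0 := by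
    set ζ := av π x (av π z ξ) with hζ
    have f1 : ∀ a, π (x a) ζ = ζ := fun a => av_fix hx a _
    have f2 : ∀ b, π (y b) ζ = ζ := by
      intro b
      rw [hζ, av_apply, map_smul, map_sum]
      simp only [hζfix]
    have f3 : av π z ζ = ζ := by
      apply av_eq_of_fix
      intro c
      rw [hζ, av_comm (w := x) (z c) (fun a => hh.zx c a), av_fix hz]
    have f4 := horth ζ f1 f2
    have f5 : inner ℂ ζ ζ = (0 : ℂ) := by
      calc inner ℂ ζ ζ = inner ℂ ζ (av π x (av π z ξ)) := by rw [← hζ]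
        _ = inner ℂ (av π x ζ) (av π z ξ) := (av_inner hπ hx _ _).symm
        _ = inner ℂ ζ (av π z ξ) := by rw [av_eq_of_fix ζ f1]
        _ = inner ℂ (av π z ζ) ξ := (av_inner hπ hz _ _).symm
        _ = inner ℂ ζ ξ := by rw [f3]
        _ = 0 := f4
    exact inner_self_eq_zero.1 f5
  set ξ' := ξ - av π z ξ with hξ'
  have g1 : ∀ b, π (y b) ξ' = ξ' := by
    intro b; rw [hξ', map_sub, hy, hzy]
  have g2 : av π z ξ' = 0 := by
    rw [hξ', map_sub, av_eq_of_fix (w := z) (av π z ξ) (fun a => av_fix hz a _), sub_self]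
  have g3 : av π x ξ = av π x ξ' := by
    rw [hξ', map_sub, hζ0, sub_zero]
  have g4 : ∀ a, a ≠ 0 → inner ℂ (π (x a) ξ') ξ' = (0 : ℂ) := by
    intro a ha
    have e1 : ∀ b, inner ℂ (π (x a) ξ') ξ' = inner ℂ (π (x a) (π (z (a * b)) ξ')) ξ' := by
      intro b
      have h1 : π (x a) ξ' = π (y b) (π (x a) (π (z (a * b)) ξ')) := by
        calc π (x a) ξ' = π (x a) (π (y b) ξ') := by rw [g1]
          _ = π (x a * y b) ξ' := by rw [pi_mul]
          _ = π (y b * x a * z (a * b)) ξ' := by rw [hh.comm]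
          _ = _ := by rw [pi_mul, pi_mul]
      calc inner ℂ (π (x a) ξ') ξ' = inner ℂ (π (y b) (π (x a) (π (z (a * b)) ξ'))) (π (y b) ξ') := by
            rw [← h1, g1]
        _ = _ := pi_inner hπ _ _ _
    have e2 : (Fintype.card k : ℂ) * inner ℂ (π (x a) ξ') ξ' =
        inner ℂ (π (x a) (∑ b, π (z (a * b)) ξ')) ξ' := by
      rw [map_sum, sum_inner]
      rw [← Finset.sum_congr rfl (fun b _ => e1 b), Finset.sum_const, Finset.card_univ,
        nsmul_eq_mul]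
    have e3 : ∑ b, π (z (a * b)) ξ' = 0 := by
      have h2 : ∑ b, π (z (a * b)) ξ' = ∑ c, π (z c) ξ' :=
        Fintype.sum_equiv (Equiv.mulLeft₀ a ha) _ _ (fun b => rfl)
      rw [h2]
      have h3 := g2
      rw [av_apply, smul_eq_zero] at h3
      rcases h3 with h3 | h3
      · exact absurd h3 (inv_ne_zero hq)
      · exact h3
    rw [e3, map_zero, inner_zero_left] at e2
    exact (mul_eq_zero.1 e2).resolve_left hq
  have g5 : inner ℂ (av π x ξ') (av π x ξ') = (Fintype.card k : ℂ)⁻¹ * inner ℂ ξ' ξ' := by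
    rw [← av_inner hπ hx, av_eq_of_fix (w := x) (av π x ξ') (fun a => av_fix hx a _), av_apply,
      inner_smul_left, sum_inner]
    rw [Finset.sum_eq_single 0]
    · rw [w_zero hx, pi_one]; simp
    · intro a _ ha; exact g4 a ha
    · simp
  have hc : (0 : ℝ) < Fintype.card k := by exact_mod_cast Fintype.card_pos
  have g6 : ‖av π x ξ'‖ ^ 2 = (Fintype.card k : ℝ)⁻¹ * ‖ξ'‖ ^ 2 := by
    have g5' : ((‖av π x ξ'‖ ^ 2 : ℝ) : ℂ) = (((Fintype.card k : ℝ)⁻¹ * ‖ξ'‖ ^ 2 : ℝ) : ℂ) := by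
      rw [norm_sq_inner, g5, Complex.ofReal_mul, norm_sq_inner, Complex.ofReal_inv,
        Complex.ofReal_natCast]
    exact Complex.ofReal_injective g5'
  have g7 : ‖ξ'‖ ^ 2 ≤ ‖ξ‖ ^ 2 := by
    have h1 : inner ℂ (av π z ξ) ξ' = (0 : ℂ) := by rw [av_inner hπ hz, g2, inner_zero_right]
    have h2 : ξ = av π z ξ + ξ' := by rw [hξ']; abel
    have h3 : ‖ξ‖ ^ 2 = ‖av π z ξ‖ ^ 2 + ‖ξ'‖ ^ 2 := by
      conv_lhs => rw [h2]
      rw [sq, norm_add_sq_eq_norm_sq_add_norm_sq_of_inner_eq_zero _ _ h1]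
      ring
    rw [h3]; nlinarith [sq_nonneg ‖av π z ξ‖]
  have g8 : ‖av π x ξ‖ ^ 2 ≤ ((Real.sqrt (Fintype.card k))⁻¹ * ‖ξ‖) ^ 2 := by
    rw [g3, g6, mul_pow, inv_pow, Real.sq_sqrt hc.le]
    gcongr
  have g9 := (sq_le_sq₀ (norm_nonneg _) (by positivity)).1 g8
  rw [av_apply] at g9
  exact g9

theorem T_main : P_pair → P_gap → P_heis → P_orb → P_T := by
  intro hpair hgap hheis horb k _ _ G _ hcard hdata
  classical
  have : Fintype k := Fintype.ofFinite k
  obtain ⟨x, z, y, N, _, ι, n, hH, hy0, hy2, hιn, hn4, hn3, hclos⟩ := hdata.data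
  have hx : ∀ i a b, x i (a + b) = x i a * x i b := fun i => (hH i).x_add
  have hx10 : x 1 0 = 1 := w_zero (hx 1)
  have hy4 : y ^ 4 = 1 := by
    have h1 := hιn 0
    rw [hx10, one_mul, inv_one, mul_one] at h1
    rw [← h1, ← map_pow, hn4, map_one]
  let w4 : ZMod 4 → G := fun j => y ^ j.val
  have hw4 : ∀ a b, w4 (a + b) = w4 a * w4 b := by
    intro a b
    change y ^ (a + b).val = y ^ a.val * y ^ b.val
    rw [← pow_add, ZMod.val_add]
    have h1 := Nat.mod_add_div (a.val + b.val) 4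
    conv_rhs => rw [← h1, pow_add, pow_mul, hy4, one_pow, mul_one]
  let S0 : Set G := {g | ∃ i a, g = x i a} ∪ {g | ∃ j : ZMod 4, g = w4 j}
  have hS0 : S0.Finite := by
    apply Set.Finite.union
    · refine (Set.finite_range (fun p : Fin 3 × k => x p.1 p.2)).subset ?_
      rintro g ⟨i, a, rfl⟩; exact ⟨(i, a), rfl⟩
    · refine (Set.finite_range w4).subset ?_
      rintro g ⟨j, rfl⟩; exact ⟨j, rfl⟩
  refine ⟨hS0.toFinset, 1 / 100, by norm_num, ?_⟩
  intro E _ _ _ π hπ hv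
  obtain ⟨v, hv1, hvS⟩ := hv
  by_contra hcon
  push Not at hcon
  have hinv : ∀ u : E, (∀ g, π g u = u) → u = 0 := by
    intro u hu
    by_contra hne
    obtain ⟨g, hg⟩ := hcon u hne
    exact hg (hu g)
  -- the projections
  let P : Fin 4 → E →L[ℂ] E := ![av π (x 0), av π (x 1), av π (x 2), av π w4]
  have P0 : P 0 = av π (x 0) := rfl
  have P1 : P 1 = av π (x 1) := rfl
  have P2 : P 2 = av π (x 2) := rfl
  have P3 : P 3 = av π w4 := rfl
  have hsa : ∀ i, IsSelfAdjoint (P i) := by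
    intro i; fin_cases i
    · exact av_sa hπ (hx 0)
    · exact av_sa hπ (hx 1)
    · exact av_sa hπ (hx 2)
    · exact av_sa hπ hw4
  have hid : ∀ i, P i * P i = P i := by
    intro i; fin_cases i
    · exact av_idem (hx 0)
    · exact av_idem (hx 1)
    · exact av_idem (hx 2)
    · exact av_idem hw4
  have hcard' : (512 : ℝ) ≤ (Fintype.card k : ℝ) := by
    rw [← Nat.card_eq_fintype_card]; exact_mod_cast hcard
  have hsq : (Real.sqrt (Fintype.card k))⁻¹ ≤ 1 / 22 := by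
    rw [inv_eq_one_div]
    apply one_div_le_one_div_of_le (by norm_num)
    apply Real.le_sqrt_of_sq_le
    linarith [hcard']
  -- Heisenberg pairs
  have hheisp : ∀ i : Fin 3, ∀ ξ : E, -(1 / 22 : ℝ) * (‖ξ - av π (x (i + 1)) ξ‖ ^ 2 +
      ‖ξ - av π (x i) ξ‖ ^ 2) ≤
      2 * (inner ℂ (ξ - av π (x (i + 1)) ξ) (ξ - av π (x i) ξ) : ℂ).re := by
    intro i
    apply hpair E (av π (x (i + 1))) (av π (x i)) (av_sa hπ (hx _)) (av_idem (hx _))
      (av_sa hπ (hx _)) (av_idem (hx _)) (1 / 22) (by norm_num) (by norm_num)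
    intro ξ h1 h2
    have h3 := hheis k G (x i) (x (i + 1)) (z i) (hH i) E π hπ ξ (fix_of_av (hx _) h1) (by
      intro ζ h4 h5
      exact h2 ζ (av_eq_of_fix ζ h5) (av_eq_of_fix ζ h4))
    rw [← av_apply] at h3
    refine h3.trans ?_
    gcongr
  -- commuting pairs
  have hcomm : ∀ i : Fin 3, (∀ a, y * x i a = x i a * y) → ∀ ξ : E, -(0 : ℝ) *
      (‖ξ - av π (x i) ξ‖ ^ 2 + ‖ξ - av π w4 ξ‖ ^ 2) ≤
      2 * (inner ℂ (ξ - av π (x i) ξ) (ξ - av π w4 ξ) : ℂ).re := by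
    intro i hyi
    apply hpair E (av π (x i)) (av π w4) (av_sa hπ (hx _)) (av_idem (hx _))
      (av_sa hπ hw4) (av_idem hw4) 0 le_rfl (by norm_num)
    intro ξ h1 h2
    have h3 : inner ℂ (av π w4 ξ) ξ = (0 : ℂ) := by
      apply h2 (av π w4 ξ)
      · apply av_eq_of_fix
        intro a
        rw [av_comm (w := w4) (x i a) (fun j => ?_), fix_of_av (hx i) h1]
        change x i a * y ^ j.val = y ^ j.val * x i a
        exact (Commute.pow_left (hyi a) j.val).symm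
      · exact av_eq_of_fix _ (fun a => av_fix hw4 a _)
    have h4 : inner ℂ (av π w4 ξ) (av π w4 ξ) = (0 : ℂ) := by
      rw [← av_inner hπ hw4, av_eq_of_fix (w := w4) (av π w4 ξ) (fun a => av_fix hw4 a _)]
      exact h3
    rw [inner_self_eq_zero.1 h4]; simp
  -- the pair (1,3)
  have horb' : ∀ ξ : E, -(7 / 8 : ℝ) *
      (‖ξ - av π (x 1) ξ‖ ^ 2 + ‖ξ - av π w4 ξ‖ ^ 2) ≤
      2 * (inner ℂ (ξ - av π (x 1) ξ) (ξ - av π w4 ξ) : ℂ).re := by
    apply hpair E (av π (x 1)) (av π w4) (av_sa hπ (hx _)) (av_idem (hx _))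
      (av_sa hπ hw4) (av_idem hw4) (7 / 8) (by norm_num) (by norm_num)
    intro ξ h1 h2
    have h3 := horb k G N (x 1) y ι n hdata.two (hx 1) hιn hn4 hn3 E π hπ ξ
      (fix_of_av (hx _) h1) (by
      intro ζ h4 h5
      refine h2 ζ (av_eq_of_fix ζ h4) (av_eq_of_fix ζ (fun j => ?_))
      change π (y ^ j.val) ζ = ζ
      generalize j.val = m
      induction m with
      | zero => rw [pow_zero, pi_one]
      | succ m ih => rw [pow_succ, pi_mul, h5, ih])
    have h4 : av π w4 ξ = (4 : ℂ)⁻¹ • ∑ j ∈ Finset.range 4, π (y ^ j) ξ := by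
      rw [av_apply, ZMod.card]
      congr 1
    rw [h4]; exact h3
  have hsymm : ∀ u v : E, (inner ℂ u v : ℂ).re = (inner ℂ v u : ℂ).re := fun u v => by
    rw [← inner_conj_symm, Complex.conj_re]
  let e : Fin 4 → Fin 4 → ℝ := ![![0, 1 / 22, 1 / 22, 0], ![1 / 22, 0, 1 / 22, 7 / 8],
    ![1 / 22, 1 / 22, 0, 0], ![0, 7 / 8, 0, 0]]
  have h01 := hheisp 0
  have h12 := hheisp 1
  have h20 := hheisp 2
  have h03 := hcomm 0 hy0
  have h23 := hcomm 2 hy2
  have hkey := hgap E P hsa hid e (1 / 32) (by norm_num)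
    (by intro i j; fin_cases i <;> fin_cases j <;> rfl)
    (by
      intro i j hij ξ
      have a01 := h01 ξ
      have a12 := h12 ξ
      have a20 := h20 ξ
      have a03 := h03 ξ
      have a23 := h23 ξ
      have a13 := horb' ξ
      have e1 : (0 : Fin 3) + 1 = 1 := rfl
      have e2 : (1 : Fin 3) + 1 = 2 := rfl
      have e3 : (2 : Fin 3) + 1 = 0 := rfl
      rw [e1] at a01
      rw [e2] at a12
      rw [e3] at a20
      fin_cases i <;> fin_cases j
      · exact absurd rfl hij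
      · change -(1 / 22 : ℝ) * (‖ξ - av π (x 0) ξ‖ ^ 2 + ‖ξ - av π (x 1) ξ‖ ^ 2) ≤
          2 * (inner ℂ (ξ - av π (x 0) ξ) (ξ - av π (x 1) ξ) : ℂ).re
        rw [hsymm]; linarith
      · change -(1 / 22 : ℝ) * (‖ξ - av π (x 0) ξ‖ ^ 2 + ‖ξ - av π (x 2) ξ‖ ^ 2) ≤
          2 * (inner ℂ (ξ - av π (x 0) ξ) (ξ - av π (x 2) ξ) : ℂ).re
        linarith
      · change -(0 : ℝ) * (‖ξ - av π (x 0) ξ‖ ^ 2 + ‖ξ - av π w4 ξ‖ ^ 2) ≤
          2 * (inner ℂ (ξ - av π (x 0) ξ) (ξ - av π w4 ξ) : ℂ).re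
        linarith
      · change -(1 / 22 : ℝ) * (‖ξ - av π (x 1) ξ‖ ^ 2 + ‖ξ - av π (x 0) ξ‖ ^ 2) ≤
          2 * (inner ℂ (ξ - av π (x 1) ξ) (ξ - av π (x 0) ξ) : ℂ).re
        linarith
      · exact absurd rfl hij
      · change -(1 / 22 : ℝ) * (‖ξ - av π (x 1) ξ‖ ^ 2 + ‖ξ - av π (x 2) ξ‖ ^ 2) ≤
          2 * (inner ℂ (ξ - av π (x 1) ξ) (ξ - av π (x 2) ξ) : ℂ).re
        rw [hsymm]; linarith
      · change -(7 / 8 : ℝ) * (‖ξ - av π (x 1) ξ‖ ^ 2 + ‖ξ - av π w4 ξ‖ ^ 2) ≤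
          2 * (inner ℂ (ξ - av π (x 1) ξ) (ξ - av π w4 ξ) : ℂ).re
        linarith
      · change -(1 / 22 : ℝ) * (‖ξ - av π (x 2) ξ‖ ^ 2 + ‖ξ - av π (x 0) ξ‖ ^ 2) ≤
          2 * (inner ℂ (ξ - av π (x 2) ξ) (ξ - av π (x 0) ξ) : ℂ).re
        rw [hsymm]; linarith
      · change -(1 / 22 : ℝ) * (‖ξ - av π (x 2) ξ‖ ^ 2 + ‖ξ - av π (x 1) ξ‖ ^ 2) ≤
          2 * (inner ℂ (ξ - av π (x 2) ξ) (ξ - av π (x 1) ξ) : ℂ).re
        linarith
      · exact absurd rfl hij
      · change -(0 : ℝ) * (‖ξ - av π (x 2) ξ‖ ^ 2 + ‖ξ - av π w4 ξ‖ ^ 2) ≤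
          2 * (inner ℂ (ξ - av π (x 2) ξ) (ξ - av π w4 ξ) : ℂ).re
        linarith
      · change -(0 : ℝ) * (‖ξ - av π w4 ξ‖ ^ 2 + ‖ξ - av π (x 0) ξ‖ ^ 2) ≤
          2 * (inner ℂ (ξ - av π w4 ξ) (ξ - av π (x 0) ξ) : ℂ).re
        rw [hsymm]; linarith
      · change -(7 / 8 : ℝ) * (‖ξ - av π w4 ξ‖ ^ 2 + ‖ξ - av π (x 1) ξ‖ ^ 2) ≤
          2 * (inner ℂ (ξ - av π w4 ξ) (ξ - av π (x 1) ξ) : ℂ).re
        rw [hsymm]; linarith
      · change -(0 : ℝ) * (‖ξ - av π w4 ξ‖ ^ 2 + ‖ξ - av π (x 2) ξ‖ ^ 2) ≤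
          2 * (inner ℂ (ξ - av π w4 ξ) (ξ - av π (x 2) ξ) : ℂ).re
        rw [hsymm]; linarith
      · exact absurd rfl hij)
    (by
      intro i
      have hsum : ∑ j ∈ Finset.univ.erase i, e i j = (∑ j, e i j) - e i i := by
        rw [← Finset.add_sum_erase Finset.univ (e i) (Finset.mem_univ i)]; ring
      rw [hsum, Fin.sum_univ_four]
      fin_cases i <;> simp [e] <;> norm_num)
    (by
      intro ξ hξ
      apply hinv
      have f0 := fix_of_av (hx 0) (hξ 0)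
      have f1 := fix_of_av (hx 1) (hξ 1)
      have f2 := fix_of_av (hx 2) (hξ 2)
      have f3 := fix_of_av hw4 (hξ 3)
      have hyf : π y ξ = ξ := by
        have h5 := f3 1
        have h6 : w4 1 = y := by
          change y ^ (1 : ZMod 4).val = y
          have : (1 : ZMod 4).val = 1 := rfl
          rw [this, pow_one]
        rwa [h6] at h5
      intro g
      have hg : g ∈ Subgroup.closure ({g | ∃ i a, g = x i a} ∪ {y}) := by
        rw [hclos]; exact Subgroup.mem_top g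
      induction hg using Subgroup.closure_induction with
      | mem g hg =>
        rcases hg with ⟨i, a, rfl⟩ | hg
        · fin_cases i
          · exact f0 a
          · exact f1 a
          · exact f2 a
        · rw [Set.mem_singleton_iff] at hg; rw [hg]; exact hyf
      | one => exact pi_one π ξ
      | mul g h _ _ h1 h2 => rw [pi_mul, h2, h1]
      | inv g _ h1 =>
        have h7 : π g⁻¹ (π g ξ) = ξ := by rw [← pi_mul, inv_mul_cancel, pi_one]
        rw [h1] at h7; exact h7)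
    v
  have hnear : ∀ s ∈ S0, ‖π s v - v‖ ≤ 1 / 100 := fun s hs =>
    (hvS s (hS0.mem_toFinset.2 hs)).le
  have n0 : ∀ i : Fin 3, ‖v - av π (x i) v‖ ≤ 1 / 100 := fun i =>
    av_near v _ (fun a => hnear _ (Or.inl ⟨i, a, rfl⟩))
  have n3 : ‖v - av π w4 v‖ ≤ 1 / 100 :=
    av_near v _ (fun a => hnear _ (Or.inr ⟨a, rfl⟩))
  rw [Fin.sum_univ_four, P0, P1, P2, P3, hv1] at hkey
  have s0 := pow_le_pow_left₀ (norm_nonneg _) (n0 0) 2
  have s1 := pow_le_pow_left₀ (norm_nonneg _) (n0 1) 2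
  have s2 := pow_le_pow_left₀ (norm_nonneg _) (n0 2) 2
  have s3 := pow_le_pow_left₀ (norm_nonneg _) n3 2
  norm_num at hkey s0 s1 s2 s3
  linarith

end Pool.Agent.W345.CR
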