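import Pool.Agent.W711.CR.Stm

set_option autoImplicit false

namespace Pool.Agent.W345.CR.Poly

open Pool.Agent.W711.CR

variable {K : Type} [AddCommGroup K] [Fintype K] {A : Type} [CommGroup A]

theorem card_shift (f : K → A) (h : K) :
    Nat.card {x : K // f (x + h) ≠ 1} = Nat.card {x : K // f x ≠ 1} :=
  Nat.card_congr ((Equiv.addRight h).subtypeEquiv (fun x => by simp))

theorem card_diff (f : K → A) (h : K) :
    Nat.card {x : K // f (x + h) * (f x)⁻¹ ≠ 1} ≤ 2 * Nat.card {x : K // f x ≠ 1} := by
  classical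
  have h1 : Nat.card {x : K // f (x + h) * (f x)⁻¹ ≠ 1} ≤
      Nat.card ({x : K // f (x + h) ≠ 1} ⊕ {x : K // f x ≠ 1}) := by
    let φ : {x : K // f (x + h) * (f x)⁻¹ ≠ 1} → ({x : K // f (x + h) ≠ 1} ⊕ {x : K // f x ≠ 1}) :=
      fun x => if hx : f x.1 ≠ 1 then Sum.inr ⟨x.1, hx⟩ else Sum.inl ⟨x.1, by
        push Not at hx
        have := x.2
        rw [hx, inv_one, mul_one] at this
        exact this⟩
    apply Nat.card_le_card_of_injective φ
    intro x y hxy
    apply Subtype.ext
    by_cases h1 : f x.1 ≠ 1 <;> by_cases h2 : f y.1 ≠ 1 <;> simp_all [φ]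
  rw [Nat.card_sum, card_shift] at h1
  omega

theorem A0 (g : K → A) (hg : ∀ s a, g (s + a) = g s) (h1 : ∃ a, g a ≠ 1) :
    Nat.card K ≤ Nat.card {x : K // g x ≠ 1} := by
  obtain ⟨a, ha⟩ := h1
  apply Nat.card_le_card_of_injective
    (fun x : K => (⟨x, by
      have := hg a (x - a)
      rw [add_sub_cancel] at this
      rw [this]; exact ha⟩ : {x : K // g x ≠ 1}))
  intro x y hxy
  exact congrArg Subtype.val hxy

theorem A1 (g : K → A) (hg : ∀ s a b, g (s + a + b) * g s = g (s + a) * g (s + b))
    (h1 : ∃ a, g a ≠ 1) : Nat.card K ≤ 2 * Nat.card {x : K // g x ≠ 1} := by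
  by_cases hc : ∀ s a, g (s + a) = g s
  · have := A0 g hc h1
    omega
  · push Not at hc
    obtain ⟨s, a, hsa⟩ := hc
    refine (A0 (fun x => g (x + a) * (g x)⁻¹) ?_ ⟨s, ?_⟩).trans (card_diff g a)
    · intro s b
      have := hg s a b
      rw [mul_inv_eq_iff_eq_mul, mul_comm (g (s + a)), mul_assoc, add_right_comm]
      rw [eq_inv_mul_iff_mul_eq, mul_comm]
      exact this
    · rw [Ne, mul_inv_eq_one]; exact hsa

theorem main : P_poly := by
  intro K _ _ A _ f _ hf h1
  by_cases hc : ∀ s a b, f (s + a + b) * f s = f (s + a) * f (s + b)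
  · have := A1 f hc h1
    omega
  · push Not at hc
    obtain ⟨s, a, b, hsab⟩ := hc
    have h2 : Nat.card K ≤ 2 * Nat.card {x : K // f (x + b) * (f x)⁻¹ ≠ 1} := by
      apply A1 (fun x => f (x + b) * (f x)⁻¹)
      · intro s a c
        have h3 := hf s a b c
        have e1 : s + a + c + b = s + a + b + c := by abel
        have e2 : s + c + b = s + b + c := by abel
        simp only [e1, e2]
        have h4 : f (s + a + b + c) * (f (s + a + c))⁻¹ * (f (s + b) * (f s)⁻¹) =
            (f (s + a + b + c) * f (s + a) * f (s + b) * f (s + c)) *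
            ((f (s + a + c))⁻¹ * (f s)⁻¹ * (f (s + a))⁻¹ * (f (s + c))⁻¹) := by
          have := mul_inv_cancel (f (s + a))
          have := mul_inv_cancel (f (s + c))
          calc _ = f (s + a + b + c) * (f (s + a + c))⁻¹ * (f (s + b) * (f s)⁻¹) *
                (f (s + a) * (f (s + a))⁻¹) * (f (s + c) * (f (s + c))⁻¹) := by
                rw [mul_inv_cancel, mul_inv_cancel, mul_one, mul_one]
            _ = _ := by
                simp only [mul_comm, mul_left_comm, mul_assoc]
        rw [h4, h3]
        have h5 : f (s + a + b) * (f (s + a))⁻¹ * (f (s + b + c) * (f (s + c))⁻¹) =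
            f (s + a + b) * (f (s + a))⁻¹ * (f (s + b + c) * (f (s + c))⁻¹) *
              (f (s + a + c) * (f (s + a + c))⁻¹) * (f s * (f s)⁻¹) := by
          rw [mul_inv_cancel, mul_inv_cancel, mul_one, mul_one]
        rw [h5]
        simp only [mul_comm, mul_left_comm, mul_assoc]
      · by_contra hcon
        push Not at hcon
        apply hsab
        have h3 := hcon s
        have h4 := hcon (s + a)
        rw [mul_inv_eq_one] at h3 h4
        rw [h3, h4]
    have h3 := card_diff f b
    omega

end Pool.Agent.W345.CR.Poly
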