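import Pool.Agent.W711.CR.Stm

set_option autoImplicit false

namespace Pool.Agent.W345.CR.Sep

open Pool.Agent.W711.CR

theorem two_mul_add {E : Type} [AddCommGroup E] (hE : ∀ v : E, v + v = 0) (f : Pol E) (v w : E) :
    2 * f.1 (v + w) = 2 * f.1 v + 2 * f.1 w := by
  have h := f.2.2 0 v v w
  have h0 := f.2.1
  simp only [zero_add, hE v] at h
  rw [h0] at h
  linear_combination -h

/-- the map `1_{phi = 1}` -/
theorem ind_mem {E : Type} [AddCommGroup E] (φ : E →+ ZMod 2) :
    (fun u => if φ u = 0 then (0 : ZMod 4) else 1) ∈ Pol E := by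
  refine ⟨by simp, fun x a b c => ?_⟩
  simp only [map_add]
  generalize φ x = x'
  generalize φ a = a'
  generalize φ b = b'
  generalize φ c = c'
  revert x' a' b' c'
  decide

theorem exists_sep {E : Type} [AddCommGroup E] (hE : ∀ v : E, v + v = 0) (v : E) (hv : v ≠ 0) :
    ∃ φ : E →+ ZMod 2, φ v ≠ 0 := by
  let _ : Module (ZMod 2) E := AddCommGroup.zmodModule (n := 2) (fun x => by
    rw [two_nsmul]; exact hE x)
  by_contra hcon
  push Not at hcon
  apply hv
  rw [← Module.forall_dual_apply_eq_zero_iff (ZMod 2) v]
  intro φ
  exact hcon φ.toAddMonoidHom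

theorem main : P_sep := by
  intro E _ hE
  have hadd : ∀ v w : E, (2 • ev (v + w) : Fn (Pol E)) = 2 • ev v + 2 • ev w := by
    intro v w
    funext f
    have := two_mul_add hE f v w
    simp only [Pi.smul_apply, Pi.add_apply, ev, two_nsmul]
    linear_combination this
  refine ⟨hadd, ?_, ?_, ?_⟩
  · intro v hv
    by_contra hne
    obtain ⟨φ, hφ⟩ := exists_sep hE v hne
    have h1 := congrFun hv ⟨_, ind_mem φ⟩
    simp only [Pi.smul_apply, ev, Pi.zero_apply, if_neg hφ] at h1
    revert h1
    decide
  · intro S a ha
    induction ha using AddSubgroup.closure_induction with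
    | mem a ha =>
      obtain ⟨v, _, rfl | rfl⟩ := ha
      · funext f
        simp only [Pi.add_apply, Pi.smul_apply, ev, Pi.zero_apply]
        generalize f.1 v = t
        revert t
        decide
      · funext f
        simp only [Pi.add_apply, Pi.zero_apply]
        generalize f.1 v = t
        revert t
        decide
    | zero => simp
    | add a b _ _ h1 h2 =>
      have : a + b + (a + b) = (a + a) + (b + b) := by abel
      rw [this, h1, h2, add_zero]
    | neg a _ h1 =>
      have : -a + -a = -(a + a) := by abel
      rw [this, h1, neg_zero]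
  · intro S v hv
    induction hv using AddSubgroup.closure_induction with
    | mem v hv => exact AddSubgroup.subset_closure ⟨v, hv, Or.inl rfl⟩
    | zero =>
      have : (2 • ev (0 : E) : Fn (Pol E)) = 0 := by
        funext f
        simp only [Pi.smul_apply, ev, Pi.zero_apply]
        rw [f.2.1, smul_zero]
      rw [this]; exact AddSubgroup.zero_mem _
    | add v w _ _ h1 h2 => rw [hadd]; exact AddSubgroup.add_mem _ h1 h2
    | neg v _ h1 =>
      have : -v = v := neg_eq_of_add_eq_zero_left (hE v)
      rw [this]; exact h1

end Pool.Agent.W345.CR.Sep
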